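import Pool.Agent.Helper82.BR.St3

/-!
# Module NA1: three collinear points
-/

namespace Pool.Agent.Helper67.BR

open Pool.Agent.Helper82.BR
open scoped ComplexConjugate

private lemma sort3 (a b c : ℝ) (hab : a ≠ b) (hac : a ≠ c) (hbc : b ≠ c) :
    ∃ x1 x2 x3 : ℝ, x1 < x2 ∧ x2 < x3 ∧
      ∀ t : ℝ, (t = a ∨ t = b ∨ t = c) ↔ (t = x1 ∨ t = x2 ∨ t = x3) := by
  rcases lt_or_gt_of_ne hab with h1 | h1 <;> rcases lt_or_gt_of_ne hac with h2 | h2 <;>
    rcases lt_or_gt_of_ne hbc with h3 | h3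
  · exact ⟨a, b, c, h1, h3, fun t => by tauto⟩
  · exact ⟨a, c, b, h2, h3, fun t => by tauto⟩
  · exact absurd (h1.trans h3) (not_lt.2 h2.le)
  · exact ⟨c, a, b, h2, h1, fun t => by tauto⟩
  · exact ⟨b, a, c, h1, h2, fun t => by tauto⟩
  · exact absurd (h1.trans h2) (not_lt.2 h3.le)
  · exact ⟨b, c, a, h3, h2, fun t => by tauto⟩
  · exact ⟨c, b, a, h3, h1, fun t => by tauto⟩

private lemma re_of_dist {a b : ℝ} (hab : a ≠ b) {s : ℂ} (h : dist s (a : ℂ) = dist s (b : ℂ)) :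
    s.re = (a + b) / 2 := by
  rw [Complex.dist_eq, Complex.dist_eq] at h
  have h1 : ‖s - a‖ ^ 2 = ‖s - b‖ ^ 2 := by rw [h]
  rw [← Complex.normSq_eq_norm_sq, ← Complex.normSq_eq_norm_sq, Complex.normSq_apply,
    Complex.normSq_apply] at h1
  simp only [Complex.sub_re, Complex.sub_im, Complex.ofReal_re, Complex.ofReal_im] at h1
  have h2 : (a - b) * (2 * s.re - (a + b)) = 0 := by nlinarith
  rcases mul_eq_zero.1 h2 with h3 | h3
  · exact absurd (sub_eq_zero.1 h3) hab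
  · linarith

private lemma core (U : Finset ℂ) (hR : Rich U) (hc : U.card = 8) (x1 x2 x3 : ℝ) (h12 : x1 < x2)
    (h23 : x2 < x3) (hreal : ∀ s : ℂ, (s ∈ U ∧ s.im = 0) ↔
      (s = (x1 : ℂ) ∨ s = (x2 : ℂ) ∨ s = (x3 : ℂ))) :
    x1 + x3 = 2 * x2 ∧ ∃ s0 s1 s2 s3 s4 : ℂ, s0.im ≠ 0 ∧ s1.im ≠ 0 ∧ s2.im ≠ 0 ∧ s3.im ≠ 0 ∧
      s4.im ≠ 0 ∧ s1 ≠ s2 ∧ s3 ≠ s4 ∧ s0.re = (x1 + x3) / 2 ∧ s1.re = (x1 + x2) / 2 ∧
      s2.re = (x1 + x2) / 2 ∧ s3.re = (x2 + x3) / 2 ∧ s4.re = (x2 + x3) / 2 ∧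
      ∀ s, s ∈ U ↔ s = (x1 : ℂ) ∨ s = (x2 : ℂ) ∨ s = (x3 : ℂ) ∨ s = s0 ∨ s = s1 ∨ s = s2 ∨
        s = s3 ∨ s = s4 := by
  have hx1 : (x1 : ℂ) ∈ U := ((hreal x1).2 (Or.inl rfl)).1
  have hx2 : (x2 : ℂ) ∈ U := ((hreal x2).2 (Or.inr (Or.inl rfl))).1
  have hx3 : (x3 : ℂ) ∈ U := ((hreal x3).2 (Or.inr (Or.inr rfl))).1
  have n12 : (x1 : ℂ) ≠ (x2 : ℂ) := fun h => h12.ne (Complex.ofReal_injective h)
  have n23 : (x2 : ℂ) ≠ (x3 : ℂ) := fun h => h23.ne (Complex.ofReal_injective h)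
  have n13 : (x1 : ℂ) ≠ (x3 : ℂ) := fun h => (h12.trans h23).ne (Complex.ofReal_injective h)
  have hRe : U.filter (fun s => s.im = 0) = {(x1 : ℂ), (x2 : ℂ), (x3 : ℂ)} := by
    ext s
    rw [Finset.mem_filter, hreal s]
    simp
  have hRc : (U.filter (fun s => s.im = 0)).card = 3 := by
    rw [hRe]
    exact Finset.card_eq_three.2 ⟨_, _, _, n12, n13, n23, rfl⟩
  set N : Finset ℂ := U.filter (fun s => ¬ s.im = 0) with hN
  have hNc : N.card = 5 := by
    have h1 : (U.filter (fun s => s.im = 0)).card + N.card = U.card := by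
      convert Finset.card_filter_add_card_filter_not (s := U) (fun s : ℂ => s.im = 0) using 2
    rw [hRc, hc] at h1
    omega
  let F : ℝ → Finset ℂ := fun m => N.filter (fun s => s.re = m)
  have hF : ∀ m s, s ∈ F m ↔ (s ∈ U ∧ s.im ≠ 0) ∧ s.re = m := by
    intro m s
    simp only [F, hN, Finset.mem_filter]
  have hdis : ∀ m m', m ≠ m' → Disjoint (F m) (F m') := by
    intro m m' hm
    rw [Finset.disjoint_left]
    intro s h1 h2
    exact hm (((hF m s).1 h1).2.symm.trans ((hF m' s).1 h2).2)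
  have k12 : 2 ≤ (F ((x1 + x2) / 2)).card := by
    refine (hR _ hx1 _ hx2 n12).trans (Finset.card_le_card fun s hs => ?_)
    rw [Finset.mem_filter] at hs
    have h1 := re_of_dist h12.ne hs.2
    rw [hF]
    refine ⟨⟨hs.1, fun h => ?_⟩, h1⟩
    rcases (hreal s).1 ⟨hs.1, h⟩ with rfl | rfl | rfl <;>
      rw [Complex.ofReal_re] at h1 <;> linarith
  have k23 : 2 ≤ (F ((x2 + x3) / 2)).card := by
    refine (hR _ hx2 _ hx3 n23).trans (Finset.card_le_card fun s hs => ?_)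
    rw [Finset.mem_filter] at hs
    have h1 := re_of_dist h23.ne hs.2
    rw [hF]
    refine ⟨⟨hs.1, fun h => ?_⟩, h1⟩
    rcases (hreal s).1 ⟨hs.1, h⟩ with rfl | rfl | rfl <;>
      rw [Complex.ofReal_re] at h1 <;> linarith
  have k13 : ∀ s ∈ U.filter (fun s => dist s (x1 : ℂ) = dist s (x3 : ℂ)),
      s ∈ F ((x1 + x3) / 2) ∨ (s = (x2 : ℂ) ∧ x1 + x3 = 2 * x2) := by
    intro s hs
    rw [Finset.mem_filter] at hs
    have h1 := re_of_dist (h12.trans h23).ne hs.2
    by_cases h : s.im = 0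
    · right
      rcases (hreal s).1 ⟨hs.1, h⟩ with rfl | rfl | rfl
      · rw [Complex.ofReal_re] at h1
        linarith
      · rw [Complex.ofReal_re] at h1
        exact ⟨rfl, by linarith⟩
      · rw [Complex.ofReal_re] at h1
        linarith
    · left
      rw [hF]
      exact ⟨⟨hs.1, h⟩, h1⟩
  have k13r := hR _ hx1 _ hx3 n13
  have d1 := hdis ((x1 + x2) / 2) ((x2 + x3) / 2) (by intro h; linarith)
  have d2 := hdis ((x1 + x2) / 2) ((x1 + x3) / 2) (by intro h; linarith)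
  have d3 := hdis ((x2 + x3) / 2) ((x1 + x3) / 2) (by intro h; linarith)
  have hsub : (F ((x1 + x2) / 2)).disjUnion (F ((x2 + x3) / 2)) d1 ∪ F ((x1 + x3) / 2) ⊆ N := by
    intro s hs
    rw [Finset.mem_union, Finset.mem_disjUnion] at hs
    rcases hs with (hs | hs) | hs <;> exact (Finset.mem_filter.1 hs).1
  have hdd : Disjoint ((F ((x1 + x2) / 2)).disjUnion (F ((x2 + x3) / 2)) d1)
      (F ((x1 + x3) / 2)) := by
    rw [Finset.disjoint_left]
    intro s hs
    rw [Finset.mem_disjUnion] at hs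
    rcases hs with hs | hs
    · exact Finset.disjoint_left.1 d2 hs
    · exact Finset.disjoint_left.1 d3 hs
  have hcu : ((F ((x1 + x2) / 2)).disjUnion (F ((x2 + x3) / 2)) d1 ∪ F ((x1 + x3) / 2)).card =
      (F ((x1 + x2) / 2)).card + (F ((x2 + x3) / 2)).card + (F ((x1 + x3) / 2)).card := by
    rw [Finset.card_union_of_disjoint hdd, Finset.card_disjUnion]
  have hle := Finset.card_le_card hsub
  rw [hcu, hNc] at hle
  have hmid : x1 + x3 = 2 * x2 := by
    by_contra hm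
    have h1 : U.filter (fun s => dist s (x1 : ℂ) = dist s (x3 : ℂ)) ⊆ F ((x1 + x3) / 2) := by
      intro s hs
      rcases k13 s hs with h | h
      · exact h
      · exact absurd h.2 hm
    have h2 := k13r.trans (Finset.card_le_card h1)
    omega
  have k13' : 1 ≤ (F ((x1 + x3) / 2)).card := by
    have h1 : U.filter (fun s => dist s (x1 : ℂ) = dist s (x3 : ℂ)) ⊆
        insert (x2 : ℂ) (F ((x1 + x3) / 2)) := by
      intro s hs
      rcases k13 s hs with h | h
      · exact Finset.mem_insert_of_mem h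
      · rw [h.1]
        exact Finset.mem_insert_self _ _
    have h2 := k13r.trans ((Finset.card_le_card h1).trans (Finset.card_insert_le _ _))
    omega
  have c12 : (F ((x1 + x2) / 2)).card = 2 := by omega
  have c23 : (F ((x2 + x3) / 2)).card = 2 := by omega
  have c13 : (F ((x1 + x3) / 2)).card = 1 := by omega
  have hNe : (F ((x1 + x2) / 2)).disjUnion (F ((x2 + x3) / 2)) d1 ∪ F ((x1 + x3) / 2) = N :=
    Finset.eq_of_subset_of_card_le hsub (by rw [hcu, hNc]; omega)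
  obtain ⟨s1, s2, hs12, e12⟩ := Finset.card_eq_two.1 c12
  obtain ⟨s3, s4, hs34, e23⟩ := Finset.card_eq_two.1 c23
  obtain ⟨s0, e13⟩ := Finset.card_eq_one.1 c13
  have m0 := (hF _ s0).1 (by rw [e13]; simp : s0 ∈ F ((x1 + x3) / 2))
  have m1 := (hF _ s1).1 (by rw [e12]; simp : s1 ∈ F ((x1 + x2) / 2))
  have m2 := (hF _ s2).1 (by rw [e12]; simp : s2 ∈ F ((x1 + x2) / 2))
  have m3 := (hF _ s3).1 (by rw [e23]; simp : s3 ∈ F ((x2 + x3) / 2))
  have m4 := (hF _ s4).1 (by rw [e23]; simp : s4 ∈ F ((x2 + x3) / 2))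
  refine ⟨hmid, s0, s1, s2, s3, s4, m0.1.2, m1.1.2, m2.1.2, m3.1.2, m4.1.2, hs12, hs34, m0.2,
    m1.2, m2.2, m3.2, m4.2, fun s => ⟨fun hs => ?_, ?_⟩⟩
  · by_cases h : s.im = 0
    · rcases (hreal s).1 ⟨hs, h⟩ with h | h | h <;> tauto
    · have h1 : s ∈ N := Finset.mem_filter.2 ⟨hs, h⟩
      rw [← hNe, Finset.mem_union, Finset.mem_disjUnion, e12, e23, e13] at h1
      simp only [Finset.mem_insert, Finset.mem_singleton] at h1
      tauto
  · rintro (rfl | rfl | rfl | rfl | rfl | rfl | rfl | rfl)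
    · exact hx1
    · exact hx2
    · exact hx3
    · exact m0.1.1
    · exact m1.1.1
    · exact m2.1.1
    · exact m3.1.1
    · exact m4.1.1

theorem hNA1 (hLIN : StLIN) (hSIM : StSIM) : StNA1 := by
  rintro S hS hc ⟨x, hx, y, hy, z, hz, hxy, hxz, hyz, him⟩
  have ha : conj (y - z) ≠ 0 := by
    rw [Ne, map_eq_zero, sub_eq_zero]
    exact hyz
  have inj : Function.Injective (fun s : ℂ => conj (y - z) * (s - z)) := by
    intro a b hab
    exact sub_left_inj.1 (mul_left_cancel₀ ha hab)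
  set U := S.image (fun s => conj (y - z) * (s - z)) with hU
  have hUR : Rich U := hSIM S _ z ha hS
  have hUc : U.card = 8 := by rw [hU, Finset.card_image_of_injective _ inj, hc]
  have mx : conj (y - z) * (x - z) ∈ U := Finset.mem_image_of_mem _ hx
  have my : conj (y - z) * (y - z) ∈ U := Finset.mem_image_of_mem _ hy
  have mz : conj (y - z) * (z - z) ∈ U := Finset.mem_image_of_mem _ hz
  have ix : (conj (y - z) * (x - z)).im = 0 := by rw [mul_comm]; exact him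
  have iy : (conj (y - z) * (y - z)).im = 0 := by
    rw [mul_comm, Complex.mul_conj]
    exact Complex.ofReal_im _
  have iz : (conj (y - z) * (z - z)).im = 0 := by simp
  have nxy : conj (y - z) * (x - z) ≠ conj (y - z) * (y - z) := fun h => hxy (inj h)
  have nxz : conj (y - z) * (x - z) ≠ conj (y - z) * (z - z) := fun h => hxz (inj h)
  have nyz : conj (y - z) * (y - z) ≠ conj (y - z) * (z - z) := fun h => hyz (inj h)
  generalize conj (y - z) * (x - z) = px at mx ix nxy nxz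
  generalize conj (y - z) * (y - z) = py at my iy nxy nyz
  generalize conj (y - z) * (z - z) = pz at mz iz nxz nyz
  have hsub : ({px, py, pz} : Finset ℂ) ⊆ U.filter (fun s => s.im = 0) := by
    intro s hs
    simp only [Finset.mem_insert, Finset.mem_singleton] at hs
    rw [Finset.mem_filter]
    rcases hs with rfl | rfl | rfl
    · exact ⟨mx, ix⟩
    · exact ⟨my, iy⟩
    · exact ⟨mz, iz⟩
  have hc3 : ({px, py, pz} : Finset ℂ).card = 3 :=
    Finset.card_eq_three.2 ⟨_, _, _, nxy, nxz, nyz, rfl⟩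
  have hle := hLIN U hUR (by omega)
  have heq : ({px, py, pz} : Finset ℂ) = U.filter (fun s => s.im = 0) :=
    Finset.eq_of_subset_of_card_le hsub (by rw [hc3]; omega)
  have rr : ∀ s t : ℂ, s.im = 0 → t.im = 0 → (s = t ↔ s.re = t.re) := fun s t h1 h2 =>
    ⟨fun h => by rw [h], fun h => Complex.ext h (h1.trans h2.symm)⟩
  obtain ⟨x1, x2, x3, h12, h23, hx⟩ := sort3 px.re py.re pz.re
    (fun h => nxy ((rr _ _ ix iy).2 h)) (fun h => nxz ((rr _ _ ix iz).2 h))
    (fun h => nyz ((rr _ _ iy iz).2 h))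
  have hreal : ∀ s : ℂ, (s ∈ U ∧ s.im = 0) ↔
      (s = (x1 : ℂ) ∨ s = (x2 : ℂ) ∨ s = (x3 : ℂ)) := by
    intro s
    rw [← Finset.mem_filter (p := fun s : ℂ => s.im = 0), ← heq]
    simp only [Finset.mem_insert, Finset.mem_singleton]
    by_cases h : s.im = 0
    · rw [rr s px h ix, rr s py h iy, rr s pz h iz, hx, rr s x1 h (Complex.ofReal_im _),
        rr s x2 h (Complex.ofReal_im _), rr s x3 h (Complex.ofReal_im _), Complex.ofReal_re,
        Complex.ofReal_re, Complex.ofReal_re]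
    · constructor
      · rintro (rfl | rfl | rfl)
        · exact absurd ix h
        · exact absurd iy h
        · exact absurd iz h
      · rintro (rfl | rfl | rfl) <;> exact absurd (Complex.ofReal_im _) h
  obtain ⟨hmid, s0, s1, s2, s3, s4, i0, i1, i2, i3, i4, n12, n34, r0, r1, r2, r3, r4, hmem⟩ :=
    core U hUR hUc x1 x2 x3 h12 h23 hreal
  have hd : 0 < x3 - x2 := by linarith
  have hd0 : ((x3 - x2 : ℝ) : ℂ)⁻¹ ≠ 0 := inv_ne_zero (Complex.ofReal_ne_zero.2 hd.ne')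
  have key : ∀ (s : ℂ) (m : ℝ), s.re = x2 + m * (x3 - x2) →
      ((x3 - x2 : ℝ) : ℂ)⁻¹ * (s - (x2 : ℂ)) = ⟨m, s.im / (x3 - x2)⟩ := by
    intro s m hs
    rw [inv_mul_eq_iff_eq_mul₀ (Complex.ofReal_ne_zero.2 hd.ne')]
    apply Complex.ext
    · simp only [Complex.sub_re, Complex.ofReal_re, Complex.mul_re, Complex.ofReal_im]
      rw [hs]
      ring
    · simp only [Complex.sub_im, Complex.ofReal_re, Complex.mul_im, Complex.ofReal_im]
      field_simp
      ring
  have q1 := key (x1 : ℂ) (-1) (by rw [Complex.ofReal_re]; linarith)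
  have q2 := key (x2 : ℂ) 0 (by rw [Complex.ofReal_re]; linarith)
  have q3 := key (x3 : ℂ) 1 (by rw [Complex.ofReal_re]; linarith)
  have p0 := key s0 0 (by rw [r0]; linarith)
  have p1 := key s1 (-1/2) (by rw [r1]; linarith)
  have p2 := key s2 (-1/2) (by rw [r2]; linarith)
  have p3 := key s3 (1/2) (by rw [r3]; linarith)
  have p4 := key s4 (1/2) (by rw [r4]; linarith)
  rw [Complex.ofReal_im, zero_div] at q1 q2 q3
  refine ⟨U.image (fun s => ((x3 - x2 : ℝ) : ℂ)⁻¹ * (s - (x2 : ℂ))), s0.im / (x3 - x2),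
    s1.im / (x3 - x2), s2.im / (x3 - x2), s3.im / (x3 - x2), s4.im / (x3 - x2),
    div_ne_zero i0 hd.ne', div_ne_zero i1 hd.ne', div_ne_zero i2 hd.ne', div_ne_zero i3 hd.ne',
    div_ne_zero i4 hd.ne', ?_, ?_, hSIM U _ _ hd0 hUR, fun w => ?_⟩
  · intro h
    rw [div_left_inj' hd.ne'] at h
    exact n12 (Complex.ext (r1.trans r2.symm) h)
  · intro h
    rw [div_left_inj' hd.ne'] at h
    exact n34 (Complex.ext (r3.trans r4.symm) h)
  · rw [Finset.mem_image]
    constructor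
    · rintro ⟨s, hs, rfl⟩
      rcases (hmem s).1 hs with rfl | rfl | rfl | rfl | rfl | rfl | rfl | rfl
      · exact Or.inl q1
      · exact Or.inr (Or.inl q2)
      · exact Or.inr (Or.inr (Or.inl q3))
      · exact Or.inr (Or.inr (Or.inr (Or.inl p0)))
      · exact Or.inr (Or.inr (Or.inr (Or.inr (Or.inl p1))))
      · exact Or.inr (Or.inr (Or.inr (Or.inr (Or.inr (Or.inl p2)))))
      · exact Or.inr (Or.inr (Or.inr (Or.inr (Or.inr (Or.inr (Or.inl p3))))))
      · exact Or.inr (Or.inr (Or.inr (Or.inr (Or.inr (Or.inr (Or.inr p4))))))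
    · rintro (rfl | rfl | rfl | rfl | rfl | rfl | rfl | rfl)
      · exact ⟨_, (hmem _).2 (by tauto), q1⟩
      · exact ⟨_, (hmem _).2 (by tauto), q2⟩
      · exact ⟨_, (hmem _).2 (by tauto), q3⟩
      · exact ⟨_, (hmem s0).2 (by tauto), p0⟩
      · exact ⟨_, (hmem s1).2 (by tauto), p1⟩
      · exact ⟨_, (hmem s2).2 (by tauto), p2⟩
      · exact ⟨_, (hmem s3).2 (by tauto), p3⟩
      · exact ⟨_, (hmem s4).2 (by tauto), p4⟩

end Pool.Agent.Helper67.BR
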